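import Mathlib

/-!
MP_8159f9 (four squares with all pairwise differences squares).

The solutions `a < b < c < d` with `d ^ 2 * (b ^ 2 - a ^ 2) = b ^ 2 * (c ^ 2 - a ^ 2)` correspond to
perfect cuboids. Geometrically: a solution is a set of six points
`∞, 0, a ^ 2, b ^ 2, c ^ 2, d ^ 2` of the projective line; the extra equation says that the
involution `∞ ↔ b ^ 2`, `0 ↔ c ^ 2` of the line also exchanges `a ^ 2` and `d ^ 2`.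
-/

namespace Pool.Agent.Results.MP_8159f9_nt.CuboidSymmetry

/-- A perfect cuboid exists if and only if there are four distinct positive squares
`a ^ 2 < b ^ 2 < c ^ 2 < d ^ 2` with all six differences squares and
`d ^ 2 * (b ^ 2 - a ^ 2) = b ^ 2 * (c ^ 2 - a ^ 2)`. -/
theorem result :
    (∃ x y z : ℤ, 0 < x ∧ 0 < y ∧ 0 < z ∧ IsSquare (x ^ 2 + y ^ 2) ∧ IsSquare (x ^ 2 + z ^ 2) ∧
      IsSquare (y ^ 2 + z ^ 2) ∧ IsSquare (x ^ 2 + y ^ 2 + z ^ 2)) ↔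
    ∃ a b c d : ℤ, 0 < a ∧ a < b ∧ b < c ∧ c < d ∧
      IsSquare (b ^ 2 - a ^ 2) ∧ IsSquare (c ^ 2 - a ^ 2) ∧ IsSquare (d ^ 2 - a ^ 2) ∧
      IsSquare (c ^ 2 - b ^ 2) ∧ IsSquare (d ^ 2 - b ^ 2) ∧ IsSquare (d ^ 2 - c ^ 2) ∧
      d ^ 2 * (b ^ 2 - a ^ 2) = b ^ 2 * (c ^ 2 - a ^ 2) := by
  constructor
  · rintro ⟨x, z, w, hx, hz, hw, ⟨D, hD⟩, ⟨V, hV⟩, ⟨Y, hY⟩, ⟨G, hG⟩⟩
    -- make all the roots positive
    obtain ⟨D, hD0, hD⟩ : ∃ D' : ℤ, 0 < D' ∧ x ^ 2 + z ^ 2 = D' * D' :=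
      ⟨|D|, abs_pos.2 (by rintro rfl; nlinarith), by rw [abs_mul_abs_self]; exact hD⟩
    obtain ⟨V, hV0, hV⟩ : ∃ V' : ℤ, 0 < V' ∧ x ^ 2 + w ^ 2 = V' * V' :=
      ⟨|V|, abs_pos.2 (by rintro rfl; nlinarith), by rw [abs_mul_abs_self]; exact hV⟩
    obtain ⟨Y, hY0, hY⟩ : ∃ Y' : ℤ, 0 < Y' ∧ z ^ 2 + w ^ 2 = Y' * Y' :=
      ⟨|Y|, abs_pos.2 (by rintro rfl; nlinarith), by rw [abs_mul_abs_self]; exact hY⟩
    obtain ⟨G, hG0, hG⟩ : ∃ G' : ℤ, 0 < G' ∧ x ^ 2 + z ^ 2 + w ^ 2 = G' * G' :=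
      ⟨|G|, abs_pos.2 (by rintro rfl; nlinarith), by rw [abs_mul_abs_self]; exact hG⟩
    have hx2 : 0 < x * x := by positivity
    have hw2 : 0 < w * w := by positivity
    have hYG : Y < G := by nlinarith
    have hDG : D < G := by nlinarith
    refine ⟨Y * z, G * z, D * Y, G * Y, by positivity, by nlinarith, ?_, by nlinarith,
      ⟨x * z, ?_⟩, ⟨x * Y, ?_⟩, ⟨V * Y, ?_⟩, ⟨x * w, ?_⟩, ⟨G * w, ?_⟩, ⟨w * Y, ?_⟩, ?_⟩
    · -- `G z < D Y`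
      have h1 : (G * z) ^ 2 < (D * Y) ^ 2 := by
        have : (D * Y) ^ 2 - (G * z) ^ 2 = (x * x) * (w * w) := by
          linear_combination (-1 : ℤ) * (Y * Y) * hD - (x ^ 2 + z ^ 2) * hY + z ^ 2 * hG
        have h2 := mul_pos hx2 hw2
        linarith
      exact lt_of_pow_lt_pow_left₀ 2 (by positivity) h1
    · linear_combination (-z ^ 2) * hG + z ^ 2 * hY
    · linear_combination (-1 : ℤ) * (Y * Y) * hD
    · linear_combination (-1 : ℤ) * (Y * Y) * hG + (Y * Y) * hV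
    · linear_combination (-1 : ℤ) * (Y * Y) * hD - (x ^ 2 + z ^ 2) * hY + z ^ 2 * hG
    · linear_combination (-1 : ℤ) * (G * G) * hY
    · linear_combination (-1 : ℤ) * (Y * Y) * hG + (Y * Y) * hD
    · linear_combination (G * G * Y * Y * z ^ 2) * (hY + hD - hG)
  · rintro ⟨a, b, c, d, ha, hab, hbc, hcd, ⟨p, hp⟩, ⟨q, hq⟩, ⟨r, hr⟩, ⟨s, hs⟩, -, -, hE⟩
    obtain ⟨p, hp0, hp⟩ : ∃ p' : ℤ, 0 < p' ∧ b ^ 2 - a ^ 2 = p' * p' :=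
      ⟨|p|, abs_pos.2 (by rintro rfl; nlinarith), by rw [abs_mul_abs_self]; exact hp⟩
    obtain ⟨q, hq0, hq⟩ : ∃ q' : ℤ, 0 < q' ∧ c ^ 2 - a ^ 2 = q' * q' :=
      ⟨|q|, abs_pos.2 (by rintro rfl; nlinarith), by rw [abs_mul_abs_self]; exact hq⟩
    obtain ⟨s, hs0, hs⟩ : ∃ s' : ℤ, 0 < s' ∧ c ^ 2 - b ^ 2 = s' * s' :=
      ⟨|s|, abs_pos.2 (by rintro rfl; nlinarith), by rw [abs_mul_abs_self]; exact hs⟩
    refine ⟨q * p, a * p, a * s, by positivity, by positivity, by positivity,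
      ⟨c * p, ?_⟩, ⟨r * p, ?_⟩, ⟨a * q, ?_⟩, ⟨b * q, ?_⟩⟩
    · linear_combination (-p ^ 2) * hq
    · linear_combination (-1 : ℤ) * hE - (c ^ 2 - d ^ 2) * hp - p ^ 2 * hq - a ^ 2 * hs +
        p ^ 2 * hr
    · linear_combination (a ^ 2) * hq - a ^ 2 * hp - a ^ 2 * hs
    · linear_combination (-q ^ 2) * hp + a ^ 2 * hq - a ^ 2 * hp - a ^ 2 * hs

end Pool.Agent.Results.MP_8159f9_nt.CuboidSymmetry
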