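import Mathlib
import Pool.Agent.H3.FSq.Nine

/-!
# Four numbers with nine of the ten conditions

With `y 0 = 0` the question asks for integers `0 < y 1 < y 2 < y 3 < y 4` such that the ten
differences `y l - y k` with `k < l` are squares.
-/

set_option autoImplicit false

namespace Pool.Agent.Results.MP_8159f9_nt.NineOfTen

/-- For each of the ten pairs `i < j` there are infinitely many integral vectors
`0 = y 0 < y 1 < y 2 < y 3 < y 4`, not divisible by the square of a non-unit, such that the nine
differences `y l - y k`, `k < l`, `(k, l) ≠ (i, j)`, are squares. -/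
theorem result (i j : Fin 5) (hij : i < j) :
    {y : Fin 5 → ℤ | y 0 = 0 ∧ StrictMono y ∧
      (∀ m : ℤ, (∀ k, m ^ 2 ∣ y k) → IsUnit m) ∧
      ∀ k l, k < l → (k, l) ≠ (i, j) → IsSquare (y l - y k)}.Infinite :=
  Pool.Agent.H3.FSq.nine i j hij

end Pool.Agent.Results.MP_8159f9_nt.NineOfTen
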