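import Pool.Agent.H60.FS.Main

/-!
A power saving in the number of primitive solutions of Q1 (four squares with all six differences
square), and a positive proportion of the integers that are not the largest of four such numbers.
-/

namespace Pool.Agent.Results.MP_8159f9_nt.PowerSaving

/-- `y² - x²` is the square of an integer. -/
def SqDiff (x y : ℕ) : Prop := ∃ t : ℕ, y ^ 2 = x ^ 2 + t ^ 2

/-- `0 < a < b < c < d` and all six differences of the squares are squares. -/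
def IsSolution (a b c d : ℕ) : Prop :=
  0 < a ∧ a < b ∧ b < c ∧ c < d ∧ SqDiff a b ∧ SqDiff a c ∧ SqDiff a d ∧
    SqDiff b c ∧ SqDiff b d ∧ SqDiff c d

open Classical in
/-- (1) For every `ε > 0` there is `C` such that for all `X ≥ 1` at most `C X^(9/10 + ε)`
quadruples `(a, b, c, d)` of integers in `[1, X]` with `gcd(a, b, c, d) = 1` are solutions.
(2) There are `κ > 0` and `N₀` such that for all `N ≥ N₀` at least `κ N` of the integers
`1 ≤ d ≤ N` are not the largest member `d` of any solution. -/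
theorem result :
    (∀ ε : ℝ, 0 < ε → ∃ C : ℝ, ∀ X : ℕ, 1 ≤ X →
      (((Finset.Icc 1 X ×ˢ Finset.Icc 1 X ×ˢ Finset.Icc 1 X ×ˢ Finset.Icc 1 X).filter
        fun q : ℕ × ℕ × ℕ × ℕ => IsSolution q.1 q.2.1 q.2.2.1 q.2.2.2 ∧
          Nat.gcd (Nat.gcd q.1 q.2.1) (Nat.gcd q.2.2.1 q.2.2.2) = 1).card : ℝ) ≤
        C * (X : ℝ) ^ (9 / 10 + ε)) ∧
    ∃ κ : ℝ, 0 < κ ∧ ∃ N0 : ℕ, ∀ N : ℕ, N0 ≤ N →
      κ * (N : ℝ) ≤ (((Finset.Icc 1 N).filter fun d => ¬ ∃ a b c, IsSolution a b c d).card : ℝ) := by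
  obtain ⟨h1, h2⟩ := Pool.Agent.H60.FS.main_thm
  constructor
  · intro ε hε
    obtain ⟨C, hC⟩ := h1 ε hε
    refine ⟨C, fun X hX => ?_⟩
    refine le_trans ?_ (hC X hX)
    have hsub : ((Finset.Icc 1 X ×ˢ Finset.Icc 1 X ×ˢ Finset.Icc 1 X ×ˢ Finset.Icc 1 X).filter
        fun q : ℕ × ℕ × ℕ × ℕ => IsSolution q.1 q.2.1 q.2.2.1 q.2.2.2 ∧
          Nat.gcd (Nat.gcd q.1 q.2.1) (Nat.gcd q.2.2.1 q.2.2.2) = 1) ⊆
        ((Finset.Icc 1 X ×ˢ Finset.Icc 1 X ×ˢ Finset.Icc 1 X ×ˢ Finset.Icc 1 X).filter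
        fun q : ℕ × ℕ × ℕ × ℕ => Pool.Agent.H60.FS.Sol q.1 q.2.1 q.2.2.1 q.2.2.2) := by
      intro q hq
      obtain ⟨m1, ⟨a1, a2, a3, a4, a5, a6, a7, a8, a9, a10⟩, m3⟩ := Finset.mem_filter.1 hq
      exact Finset.mem_filter.2 ⟨m1, a1, a2, a3, a4, m3, a5, a6, a7, a8, a9, a10⟩
    exact_mod_cast Finset.card_le_card hsub
  · obtain ⟨κ, hκ, N0, hN0⟩ := h2
    refine ⟨κ, hκ, N0, fun N hN => (hN0 N hN).trans ?_⟩
    have hsub : ((Finset.Icc 1 N).filter fun d => ¬ ∃ a b c, Pool.Agent.H60.FS.Sol0 a b c d) ⊆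
        (Finset.Icc 1 N).filter fun d => ¬ ∃ a b c, IsSolution a b c d := by
      intro d hd
      obtain ⟨m1, m2⟩ := Finset.mem_filter.1 hd
      exact Finset.mem_filter.2 ⟨m1, fun ⟨a, b, c, h⟩ => m2 ⟨a, b, c, h⟩⟩
    exact_mod_cast Finset.card_le_card hsub

end Pool.Agent.Results.MP_8159f9_nt.PowerSaving
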