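import Pool.Agent.H60.TN.Main

/-!
# MP_8159f9_nt: divisibility of the ten numbers of a solution

A solution `a < b < c < d` of the problem comes with six square roots `r, s, t, u, v, w` of the
differences. Among these ten numbers there are many multiples of small primes.
-/

set_option autoImplicit false

namespace Pool.Agent.Results.MP_8159f9_nt.TenNumbers

/-- The number of entries (positions) of the list `L` which are divisible by `m`. -/
def mult (m : ℕ) (L : List ℕ) : ℕ := L.countP fun x => decide (m ∣ x)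

/-- Let `a, b, c, d` be natural numbers such that the six differences of their squares are the
squares of `r, s, t, u, v, w` (for instance a solution of Q1). Of the ten numbers
`a, b, c, d, r, s, t, u, v, w` at least four are divisible by 4, four by 3, four by 5, one by 16,
one by 9, one by 25, two by 7, two by 13, two by 17, one by 11, one by 29 and one by 37, and their
product is divisible by `2^10 * 3^5 * 5^5 * 7^2 * 11 * 13^2 * 17^2 * 29 * 37`. -/
theorem result (a b c d r s t u v w : ℕ)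
    (e1 : b ^ 2 = a ^ 2 + r ^ 2) (e2 : c ^ 2 = a ^ 2 + s ^ 2) (e3 : d ^ 2 = a ^ 2 + t ^ 2)
    (e4 : c ^ 2 = b ^ 2 + u ^ 2) (e5 : d ^ 2 = b ^ 2 + v ^ 2) (e6 : d ^ 2 = c ^ 2 + w ^ 2) :
    4 ≤ mult 4 [a, b, c, d, r, s, t, u, v, w] ∧ 4 ≤ mult 3 [a, b, c, d, r, s, t, u, v, w] ∧
    4 ≤ mult 5 [a, b, c, d, r, s, t, u, v, w] ∧ 1 ≤ mult 16 [a, b, c, d, r, s, t, u, v, w] ∧
    1 ≤ mult 9 [a, b, c, d, r, s, t, u, v, w] ∧ 1 ≤ mult 25 [a, b, c, d, r, s, t, u, v, w] ∧
    2 ≤ mult 7 [a, b, c, d, r, s, t, u, v, w] ∧ 2 ≤ mult 13 [a, b, c, d, r, s, t, u, v, w] ∧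
    2 ≤ mult 17 [a, b, c, d, r, s, t, u, v, w] ∧ 1 ≤ mult 11 [a, b, c, d, r, s, t, u, v, w] ∧
    1 ≤ mult 29 [a, b, c, d, r, s, t, u, v, w] ∧ 1 ≤ mult 37 [a, b, c, d, r, s, t, u, v, w] ∧
    2 ^ 10 * 3 ^ 5 * 5 ^ 5 * 7 ^ 2 * 11 * 13 ^ 2 * 17 ^ 2 * 29 * 37 ∣
      a * b * c * d * r * s * t * u * v * w := by
  obtain ⟨h1, h2, h3, h4, h5, h6, h7, h8, h9, h10, h11, h12⟩ :=
    Pool.Agent.H60.TN.mults e1 e2 e3 e4 e5 e6
  refine ⟨h1, h2, h3, h4, h5, h6, h7, h8, h9, h10, h11, h12, ?_⟩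
  have h := Pool.Agent.H60.TN.prod_dvd e1 e2 e3 e4 e5 e6
  have e : [a, b, c, d, r, s, t, u, v, w].prod = a * b * c * d * r * s * t * u * v * w := by
    simp only [List.prod_cons, List.prod_nil]
    ring
  rwa [e] at h

end Pool.Agent.Results.MP_8159f9_nt.TenNumbers
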